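import Mathlib

/-!
# Determinants with fixed first rows

`D G x y` is the determinant of the matrix with rows `G 0, …, G (c - 1), x, y`.
-/

set_option autoImplicit false

namespace Run7.h523.XK

open Matrix

variable {K : Type} [Field K] {c : ℕ}

/-- The determinant of the matrix with the rows `G t`, `x`, `y`. -/
def D (G : Fin c → Fin (c + 2) → K) (x y : Fin (c + 2) → K) : K :=
  (Matrix.of (Fin.append G ![x, y])).det

omit [Field K] in
theorem upd0 (G : Fin c → Fin (c + 2) → K) (x y a : Fin (c + 2) → K) :
    (Matrix.of (Fin.append G ![x, y])).updateRow (Fin.natAdd c 0) a =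
      Matrix.of (Fin.append G ![a, y]) := by
  ext i j
  refine Fin.addCases (fun t => ?_) (fun s => ?_) i
  · rw [Matrix.updateRow_ne]
    · simp [Fin.append_left]
    · intro h
      have := congrArg Fin.val h
      simp at this
      have := t.2
      omega
  · fin_cases s
    · simp [Matrix.updateRow_self, Fin.append_right]
    · rw [Matrix.updateRow_ne]
      · simp [Fin.append_right]
      · intro h
        have := congrArg Fin.val h
        simp at this

omit [Field K] in
theorem upd1 (G : Fin c → Fin (c + 2) → K) (x y a : Fin (c + 2) → K) :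
    (Matrix.of (Fin.append G ![x, y])).updateRow (Fin.natAdd c 1) a =
      Matrix.of (Fin.append G ![x, a]) := by
  ext i j
  refine Fin.addCases (fun t => ?_) (fun s => ?_) i
  · rw [Matrix.updateRow_ne]
    · simp [Fin.append_left]
    · intro h
      have := congrArg Fin.val h
      simp at this
      have := t.2
      omega
  · fin_cases s
    · rw [Matrix.updateRow_ne]
      · simp [Fin.append_right]
      · intro h
        have := congrArg Fin.val h
        simp at this
    · have : (Fin.natAdd c (1 : Fin 2)) = Fin.natAdd c (⟨1, by omega⟩ : Fin 2) := rfl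
      simp [Matrix.updateRow_self, Fin.append_right]

theorem D_self (G : Fin c → Fin (c + 2) → K) (x : Fin (c + 2) → K) : D G x x = 0 := by
  refine Matrix.det_zero_of_row_eq (i := Fin.natAdd c (0 : Fin 2)) (j := Fin.natAdd c (1 : Fin 2))
    ?_ ?_
  · intro h
    have := congrArg Fin.val h
    simp at this
  · funext j
    simp [Fin.append_right]

theorem D_left (G : Fin c → Fin (c + 2) → K) (t : Fin c) (y : Fin (c + 2) → K) :
    D G (G t) y = 0 := by
  refine Matrix.det_zero_of_row_eq (i := Fin.castAdd 2 t) (j := Fin.natAdd c (0 : Fin 2))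
    ?_ ?_
  · intro h
    have := congrArg Fin.val h
    simp at this
    have := t.2
    omega
  · funext j
    simp [Fin.append_right, Fin.append_left]

theorem D_linL (G : Fin c → Fin (c + 2) → K) (y : Fin (c + 2) → K) :
    ∃ l : (Fin (c + 2) → K) →ₗ[K] K, ∀ x, l x = D G x y := by
  refine ⟨(LinearMap.proj (Fin.natAdd c (0 : Fin 2))).comp
    (Matrix.cramer (Matrix.of (Fin.append G ![0, y]))ᵀ), fun x => ?_⟩
  rw [LinearMap.comp_apply, LinearMap.proj_apply, Matrix.cramer_transpose_apply, upd0]
  rfl

theorem D_linR (G : Fin c → Fin (c + 2) → K) (y : Fin (c + 2) → K) :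
    ∃ l : (Fin (c + 2) → K) →ₗ[K] K, ∀ x, l x = D G y x := by
  refine ⟨(LinearMap.proj (Fin.natAdd c (1 : Fin 2))).comp
    (Matrix.cramer (Matrix.of (Fin.append G ![y, 0]))ᵀ), fun x => ?_⟩
  rw [LinearMap.comp_apply, LinearMap.proj_apply, Matrix.cramer_transpose_apply, upd1]
  rfl

theorem D_swap (G : Fin c → Fin (c + 2) → K) (x y : Fin (c + 2) → K) : D G x y = - D G y x := by
  obtain ⟨l, hl⟩ := D_linL G (x + y)
  obtain ⟨l1, h1⟩ := D_linR G x
  obtain ⟨l2, h2⟩ := D_linR G y
  have h : D G (x + y) (x + y) = 0 := D_self _ _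
  rw [← hl, map_add, hl, hl, ← h1, ← h2, map_add, map_add, h1, h1, h2, h2, D_self, D_self] at h
  linear_combination h

/-- Cramer's rule. -/
theorem cram (G : Fin c → Fin (c + 2) → K) (u v a y : Fin (c + 2) → K) :
    D G u v * D G a y = D G a v * D G u y + D G u a * D G v y := by
  obtain ⟨l, hl⟩ := D_linL G y
  set M := Matrix.of (Fin.append G ![u, v]) with hM
  have h1 : Mᵀ *ᵥ Matrix.cramer Mᵀ a = Mᵀ.det • a := Matrix.mulVec_cramer _ _
  have h2 : Mᵀ *ᵥ Matrix.cramer Mᵀ a = ∑ i, Matrix.cramer Mᵀ a i • M i := by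
    funext j
    simp [Matrix.mulVec, dotProduct, mul_comm]
  rw [h2] at h1
  have h3 := congrArg l h1
  have hs : ∀ (r : K) x, l (r • x) = r * D G x y := by
    intro r x; rw [map_smul, hl, smul_eq_mul]
  rw [map_sum, Fin.sum_univ_add] at h3
  simp only [hs, Matrix.cramer_transpose_apply] at h3
  have h4 : ∀ t : Fin c, M (Fin.castAdd 2 t) = G t := by
    intro t; funext j; simp [hM, Fin.append_left]
  have h5 : M (Fin.natAdd c (0 : Fin 2)) = u := by
    funext j; simp [hM, Fin.append_right]
  have h6 : M (Fin.natAdd c (1 : Fin 2)) = v := by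
    funext j; simp [hM, Fin.append_right]
  simp only [h4, D_left, mul_zero, Finset.sum_const_zero, zero_add, Fin.sum_univ_two, h5, h6] at h3
  rw [hM, upd0, upd1, Matrix.det_transpose] at h3
  exact h3.symm

end Run7.h523.XK
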