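import Mathlib
import Pool.Agent.Y734.M.StmsN
import Pool.Agent.Run7.h523.XK.Alg

/-!
# Cross ratios of points in general linear position
-/

set_option autoImplicit false

namespace Run7.h523.XK

open Matrix Pool.Agent.Y734.M

variable {K : Type} [Field K] {c n : ℕ}

/-- The cross ratio of the last four points, seen from the first ones. -/
noncomputable def crX (A : Fin n → Fin (c + 2) → K) (f : Fin (c + 4) → Fin n) : K :=
  D (fun t => A (f (Fin.castAdd 4 t))) (A (f (Fin.natAdd c 0))) (A (f (Fin.natAdd c 1))) *
    D (fun t => A (f (Fin.castAdd 4 t))) (A (f (Fin.natAdd c 2))) (A (f (Fin.natAdd c 3))) /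
    (D (fun t => A (f (Fin.castAdd 4 t))) (A (f (Fin.natAdd c 0))) (A (f (Fin.natAdd c 2))) *
      D (fun t => A (f (Fin.castAdd 4 t))) (A (f (Fin.natAdd c 1))) (A (f (Fin.natAdd c 3))))

/-- General linear position. -/
def GP (A : Fin n → Fin (c + 2) → K) : Prop :=
  ∀ h : Fin (c + 2) → Fin n, Function.Injective h → (Matrix.of fun t => A (h t)).det ≠ 0

theorem append_inj {α : Type} {a b : ℕ} {g : Fin a → α} {h : Fin b → α}
    (hg : Function.Injective g) (hh : Function.Injective h) (hd : ∀ i j, g i ≠ h j) :
    Function.Injective (Fin.append g h) := by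
  intro x y
  refine Fin.addCases (fun i => ?_) (fun i => ?_) x <;>
    refine Fin.addCases (fun j => ?_) (fun j => ?_) y
  · simp only [Fin.append_left]
    intro e; rw [hg e]
  · simp only [Fin.append_left, Fin.append_right]
    intro e; exact absurd e (hd _ _)
  · simp only [Fin.append_left, Fin.append_right]
    intro e; exact absurd e.symm (hd _ _)
  · simp only [Fin.append_right]
    intro e; rw [hh e]

theorem castAdd_ne_natAdd {a b : ℕ} (i : Fin a) (j : Fin b) : Fin.castAdd b i ≠ Fin.natAdd a j := by
  intro h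
  have := congrArg Fin.val h
  simp at this
  have := i.2
  omega

theorem D_eq (A : Fin n → Fin (c + 2) → K) (g : Fin c → Fin n) (x y : Fin n) :
    D (fun t => A (g t)) (A x) (A y) = (Matrix.of fun t => A (Fin.append g ![x, y] t)).det := by
  unfold D
  congr 1
  ext t j
  refine Fin.addCases (fun t => ?_) (fun t => ?_) t
  · simp [Fin.append_left]
  · simp only [Matrix.of_apply, Fin.append_right]
    fin_cases t <;> rfl

theorem D_ne {A : Fin n → Fin (c + 2) → K} (hA : GP A) {g : Fin c → Fin n} {x y : Fin n}
    (hg : Function.Injective g) (hx : ∀ t, g t ≠ x) (hy : ∀ t, g t ≠ y) (hxy : x ≠ y) :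
    D (fun t => A (g t)) (A x) (A y) ≠ 0 := by
  rw [D_eq]
  refine hA _ (append_inj hg ?_ ?_)
  · intro i j h
    fin_cases i <;> fin_cases j <;> simp_all
  · intro i j
    fin_cases j
    · exact hx i
    · exact hy i

theorem D_nef {A : Fin n → Fin (c + 2) → K} (hA : GP A) {f : Fin (c + 4) → Fin n}
    (hf : Function.Injective f) {i j : Fin 4} (hij : i ≠ j) :
    D (fun t => A (f (Fin.castAdd 4 t))) (A (f (Fin.natAdd c i))) (A (f (Fin.natAdd c j))) ≠ 0 := by
  refine D_ne hA (g := fun t => f (Fin.castAdd 4 t)) ?_ ?_ ?_ ?_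
  · intro a b h
    exact Fin.castAdd_injective _ _ (hf h)
  · intro t h
    exact castAdd_ne_natAdd _ _ (hf h)
  · intro t h
    exact castAdd_ne_natAdd _ _ (hf h)
  · intro h
    exact hij (Fin.natAdd_injective _ _ (hf h))

/-- Projection from `c` of the points. -/
theorem proj {m : ℕ} (A : Fin n → Fin (c + 2) → K) (hA : GP A) (g : Fin c → Fin n)
    (e : Fin m → Fin n) (hg : Function.Injective g) (he : Function.Injective e)
    (hge : ∀ i j, g i ≠ e j) (u v : Fin m) (huv : u ≠ v) :
    ∃ P : Fin m → Fin 2 → K, Nd P ∧ ∀ q : Fin 4 → Fin m, Function.Injective q →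
      cr P (q 0) (q 1) (q 2) (q 3) = crX A (Fin.append g (fun s => e (q s))) := by
  set G : Fin c → Fin (c + 2) → K := fun t => A (g t) with hG
  set U := A (e u) with hU
  set V := A (e v) with hV
  have hUV : D G U V ≠ 0 := D_ne hA hg (fun t => hge t u) (fun t => hge t v) (fun h => huv (he h))
  have key : ∀ i j : Fin m, dt ![D G (A (e i)) V, D G U (A (e i))]
      ![D G (A (e j)) V, D G U (A (e j))] = D G U V * D G (A (e i)) (A (e j)) := by
    intro i j
    have h := cram G U V (A (e i)) (A (e j))
    have h2 := D_swap G V (A (e j))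
    simp only [dt, Matrix.cons_val_zero, Matrix.cons_val_one]
    rw [h, h2]
    ring
  refine ⟨fun i => ![D G (A (e i)) V, D G U (A (e i))], ?_, ?_⟩
  · intro i j hij
    rw [key]
    exact mul_ne_zero hUV (D_ne hA hg (fun t => hge t i) (fun t => hge t j) (fun h => hij (he h)))
  · intro q hq
    unfold cr crX
    rw [key, key, key, key]
    simp only [Fin.append_left, Fin.append_right]
    rw [← hG]
    have h1 : D G (A (e (q 0))) (A (e (q 2))) ≠ 0 :=
      D_ne hA hg (fun t => hge t _) (fun t => hge t _) (fun h => by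
        have := hq (he h); exact absurd this (by decide))
    have h2 : D G (A (e (q 1))) (A (e (q 3))) ≠ 0 :=
      D_ne hA hg (fun t => hge t _) (fun t => hge t _) (fun h => by
        have := hq (he h); exact absurd this (by decide))
    field_simp

end Run7.h523.XK
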