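import Mathlib
import Pool.Agent.Run7.h523.XK.Cr

/-!
# Gale duality
-/

set_option autoImplicit false

namespace Run7.h523.XK

open Matrix Pool.Agent.Y734.M

variable {K : Type} [Field K] {c n : ℕ}

theorem ker_zero {m : ℕ} (B : Fin (c + 4) → Fin m → K) (f : Fin (c + 4) → Fin (c + 4))
    (hf : Function.Injective f) (b : Fin (c + 4) → K) (hb : ∑ a, b a • B a = 0) :
    ∑ t : Fin c, b (f (Fin.castAdd 4 t)) • B (f (Fin.castAdd 4 t)) +
      ∑ s : Fin 4, b (f (Fin.natAdd c s)) • B (f (Fin.natAdd c s)) = 0 := by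
  have hbij : Function.Bijective f := Finite.injective_iff_bijective.1 hf
  have h := Equiv.sum_comp (Equiv.ofBijective f hbij) (fun a => b a • B a)
  rw [hb] at h
  rw [← Fin.sum_univ_add (fun a => b (f a) • B (f a))]
  exact h

theorem ker_rel (B : Fin (c + 4) → Fin (c + 2) → K) (f : Fin (c + 4) → Fin (c + 4))
    (hf : Function.Injective f) (b : Fin (c + 4) → K) (hb : ∑ a, b a • B a = 0)
    (y : Fin (c + 2) → K) :
    ∑ s : Fin 4, b (f (Fin.natAdd c s)) *
      D (fun t => B (f (Fin.castAdd 4 t))) (B (f (Fin.natAdd c s))) y = 0 := by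
  obtain ⟨l, hl⟩ := D_linL (fun t => B (f (Fin.castAdd 4 t))) y
  have h := congrArg l (ker_zero B f hf b hb)
  have hs : ∀ (r : K) x, l (r • x) = r * D (fun t => B (f (Fin.castAdd 4 t))) x y := by
    intro r x; rw [map_smul, hl, smul_eq_mul]
  rw [map_add, map_sum, map_sum, map_zero] at h
  simp only [hs] at h
  have h0 : ∀ t : Fin c, D (fun t => B (f (Fin.castAdd 4 t))) (B (f (Fin.castAdd 4 t))) y = 0 :=
    fun t => D_left (fun t => B (f (Fin.castAdd 4 t))) t y
  simp only [h0, mul_zero, Finset.sum_const_zero, zero_add] at h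
  exact h

/-- A kernel element which vanishes at two places is zero. -/
theorem ker_two (B : Fin (c + 4) → Fin (c + 2) → K) (hB : GP B) (b : Fin (c + 4) → K)
    (hb : ∑ a, b a • B a = 0) (i j : Fin (c + 4)) (hij : i ≠ j) (hi : b i = 0) (hj : b j = 0) :
    b = 0 := by
  -- an enumeration of the complement
  have hcard : (({i, j} : Finset (Fin (c + 4)))ᶜ).card = c + 2 := by
    rw [Finset.card_compl, Finset.card_pair hij, Fintype.card_fin]; omega
  set e := (({i, j} : Finset (Fin (c + 4)))ᶜ).orderEmbOfFin hcard with he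
  have hmem : ∀ t, e t ∉ ({i, j} : Finset (Fin (c + 4))) := fun t =>
    Finset.mem_compl.1 (Finset.orderEmbOfFin_mem _ hcard t)
  have hinj : Function.Injective (Fin.append (fun t => e t) ![i, j] : Fin (c + 2 + 2) → Fin (c + 4)) := by
    refine append_inj e.injective ?_ ?_
    · intro x y h
      fin_cases x <;> fin_cases y <;> simp_all
    · intro t s h
      have := hmem t
      fin_cases s
      · simp at h; simp [h] at this
      · simp at h; simp [h] at this
  have hbij : Function.Bijective (Fin.append (fun t => e t) ![i, j] : Fin (c + 2 + 2) → Fin (c + 4)) :=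
    (Fintype.bijective_iff_injective_and_card _).2 ⟨hinj, by simp⟩
  have h := Equiv.sum_comp (Equiv.ofBijective _ hbij) (fun a => b a • B a)
  rw [hb, Fin.sum_univ_add] at h
  simp only [Equiv.ofBijective_apply, Fin.append_left, Fin.append_right, Fin.sum_univ_two,
    Matrix.cons_val_zero, Matrix.cons_val_one, hi, hj, zero_smul, add_zero] at h
  have hdet := hB (fun t => e t) e.injective
  have hv : (fun t => b (e t)) ᵥ* (Matrix.of fun t => B (e t)) = 0 := by
    funext x
    have := congrFun h x
    simpa [Matrix.vecMul, dotProduct, Finset.sum_apply] using this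
  have hz := Matrix.eq_zero_of_vecMul_eq_zero hdet hv
  funext a
  obtain ⟨x, hx⟩ := hbij.2 a
  revert hx
  refine Fin.addCases (fun t => ?_) (fun s => ?_) x
  · intro hx
    rw [Fin.append_left] at hx
    rw [← hx]
    exact congrFun hz t
  · intro hx
    rw [Fin.append_right] at hx
    rw [← hx]
    fin_cases s
    · exact hi
    · exact hj

/-- Gale duality: `c + 4` points in general position in the projective space of dimension `c + 1`
correspond to as many different points of the projective line, with the same cross ratios. -/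
theorem gale (B : Fin (c + 4) → Fin (c + 2) → K) (hB : GP B) :
    ∃ P : Fin (c + 4) → Fin 2 → K, Nd P ∧ ∀ f : Fin (c + 4) → Fin (c + 4), Function.Injective f →
      cr P (f (Fin.natAdd c 0)) (f (Fin.natAdd c 1)) (f (Fin.natAdd c 2)) (f (Fin.natAdd c 3)) =
        crX B f := by
  classical
  let T : (Fin (c + 4) → K) →ₗ[K] (Fin (c + 2) → K) :=
    ∑ a, (LinearMap.proj a : (Fin (c + 4) → K) →ₗ[K] K).smulRight (B a)
  have hT : ∀ b, T b = ∑ a, b a • B a := by
    intro b
    simp [T, LinearMap.sum_apply]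
  have hrk := LinearMap.finrank_range_add_finrank_ker T
  have hr : Module.finrank K (LinearMap.range T) ≤ c + 2 := by
    have := Submodule.finrank_le (LinearMap.range T)
    simpa using this
  have hk : 2 ≤ Module.finrank K (LinearMap.ker T) := by
    simp only [Module.finrank_fintype_fun_eq_card, Fintype.card_fin] at hrk
    omega
  obtain ⟨w, hw⟩ := exists_linearIndependent_of_le_finrank (R := K) hk
  have hw' : LinearIndependent K (fun s => (w s : Fin (c + 4) → K)) :=
    hw.map' (LinearMap.ker T).subtype (Submodule.ker_subtype _)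
  have hker : ∀ s, ∑ a, (w s : Fin (c + 4) → K) a • B a = 0 := by
    intro s
    rw [← hT]
    exact (w s).2
  set b0 : Fin (c + 4) → K := (w 0 : Fin (c + 4) → K) with hb0
  set b1 : Fin (c + 4) → K := (w 1 : Fin (c + 4) → K) with hb1
  have hli : ∀ s t : K, s • b0 + t • b1 = 0 → s = 0 ∧ t = 0 := by
    intro s t h
    exact LinearIndependent.pair_iff.1 (by
      have : (fun s => (w s : Fin (c + 4) → K)) = ![b0, b1] := by
        funext s
        fin_cases s <;> rfl
      rw [this] at hw'
      exact hw') s t h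
  have hnd : Nd (fun a => ![b0 a, b1 a]) := by
    intro i j hij h
    simp only [dt, Matrix.cons_val_zero, Matrix.cons_val_one] at h
    have : ∃ s t : K, (s ≠ 0 ∨ t ≠ 0) ∧ s * b0 i + t * b1 i = 0 ∧ s * b0 j + t * b1 j = 0 := by
      by_cases h1 : b0 i = 0 ∧ b1 i = 0
      · by_cases h2 : b0 j = 0 ∧ b1 j = 0
        · exact ⟨1, 0, Or.inl one_ne_zero, by rw [h1.1]; ring, by rw [h2.1]; ring⟩
        · refine ⟨b1 j, - b0 j, ?_, by rw [h1.1, h1.2]; ring, by ring⟩
          by_contra h3
          push Not at h3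
          exact h2 ⟨neg_eq_zero.1 h3.2, h3.1⟩
      · refine ⟨b1 i, - b0 i, ?_, by ring, by linear_combination -h⟩
        by_contra h3
        push Not at h3
        exact h1 ⟨neg_eq_zero.1 h3.2, h3.1⟩
    obtain ⟨s, t, hst, h1, h2⟩ := this
    have h3 := ker_two B hB (s • b0 + t • b1) (by
      have : ∀ a, (s • b0 + t • b1) a • B a = s • (b0 a • B a) + t • (b1 a • B a) := by
        intro a
        simp only [Pi.add_apply, Pi.smul_apply, smul_eq_mul, add_smul, mul_smul]
      simp only [this, Finset.sum_add_distrib, ← Finset.smul_sum]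
      rw [hb0, hb1, hker, hker]; simp) i j hij h1 h2
    obtain ⟨h4, h5⟩ := hli s t h3
    rcases hst with h | h
    · exact h h4
    · exact h h5
  refine ⟨fun a => ![b0 a, b1 a], hnd, fun f hf => ?_⟩
  set G : Fin c → Fin (c + 2) → K := fun t => B (f (Fin.castAdd 4 t)) with hG
  have e := fun (b : Fin (c + 4) → K) (hb : ∑ a, b a • B a = 0) (s : Fin 4) =>
    ker_rel B f hf b hb (B (f (Fin.natAdd c s)))
  have e03 := e b0 (hker 0) 3
  have e13 := e b1 (hker 1) 3
  have e00 := e b0 (hker 0) 0
  have e10 := e b1 (hker 1) 0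
  rw [← hG] at e03 e13 e00 e10
  rw [Fin.sum_univ_four] at e03 e13 e00 e10
  rw [D_self] at e03 e13 e00 e10
  have n1 := D_nef hB hf (show (0 : Fin 4) ≠ 2 by decide)
  have n2 := D_nef hB hf (show (1 : Fin 4) ≠ 3 by decide)
  have d1 := hnd (f (Fin.natAdd c 0)) (f (Fin.natAdd c 2)) (fun h => by
    have := Fin.natAdd_injective _ _ (hf h); exact absurd this (by decide))
  have d2 := hnd (f (Fin.natAdd c 1)) (f (Fin.natAdd c 3)) (fun h => by
    have := Fin.natAdd_injective _ _ (hf h); exact absurd this (by decide))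
  unfold cr crX
  rw [← hG] at n1 n2 ⊢
  rw [div_eq_div_iff (mul_ne_zero d1 d2) (mul_ne_zero n1 n2)]
  simp only [dt, Matrix.cons_val_zero, Matrix.cons_val_one]
  have s10 := D_swap G (B (f (Fin.natAdd c 1))) (B (f (Fin.natAdd c 0)))
  have s20 := D_swap G (B (f (Fin.natAdd c 2))) (B (f (Fin.natAdd c 0)))
  rw [s10, s20] at e00 e10
  generalize B (f (Fin.natAdd c 0)) = B0 at *
  generalize B (f (Fin.natAdd c 1)) = B1 at *
  generalize B (f (Fin.natAdd c 2)) = B2 at *
  generalize B (f (Fin.natAdd c 3)) = B3 at *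
  generalize D G B0 B1 = D01 at *
  generalize D G B0 B2 = D02 at *
  generalize D G B0 B3 = D03 at *
  generalize D G B1 B3 = D13 at *
  generalize D G B2 B3 = D23 at *
  generalize D G B3 B0 = D30 at *
  generalize b0 (f (Fin.natAdd c 0)) = x0 at *
  generalize b0 (f (Fin.natAdd c 1)) = x1 at *
  generalize b0 (f (Fin.natAdd c 2)) = x2 at *
  generalize b0 (f (Fin.natAdd c 3)) = x3 at *
  generalize b1 (f (Fin.natAdd c 0)) = y0 at *
  generalize b1 (f (Fin.natAdd c 1)) = y1 at *
  generalize b1 (f (Fin.natAdd c 2)) = y2 at *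
  generalize b1 (f (Fin.natAdd c 3)) = y3 at *
  -- e03 : x0 * D03 + x1 * D13 + x2 * D23 + x3 * 0 = 0
  -- e00 : x0 * 0 + x1 * (-D01) + x2 * (-D02) + x3 * D30 = 0
  have f1 : (x0 * y1 - y0 * x1) * D13 = - ((x0 * y2 - y0 * x2) * D23) := by
    linear_combination x0 * e13 - y0 * e03
  have f2 : (x1 * y3 - y1 * x3) * D01 = - ((x2 * y3 - y2 * x3) * D02) := by
    linear_combination - y3 * e00 + x3 * e10
  linear_combination (x2 * y3 - y2 * x3) * D02 * f1 - (x0 * y2 - y0 * x2) * D23 * f2

end Run7.h523.XK
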