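import Mathlib
import Pool.Agent.Run7.h523.XK.Gale

/-!
# Finiteness
-/

set_option autoImplicit false

namespace Run7.h523.XK

open Matrix Pool.Agent.Y734.M

/-- `S`-integral configurations. -/
def IX (S : Finset ℕ) {K : Type} [Field K] {c n : ℕ} (A : Fin n → Fin (c + 2) → K) : Prop :=
  GP A ∧ ∀ f : Fin (c + 4) → Fin n, Function.Injective f → SU S (crX A f)

/-- The `S`-integral points of the configuration space, of degree at most `r`. -/
def XS (k : Type) [Field k] (c r n : ℕ) (S : Finset ℕ) : Set ((Fin (c + 4) ↪ Fin n) → ℂ) :=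
  {F | ∃ (L : Type) (_ : Field L) (_ : NumberField L) (_ : Algebra k L)
    (A : Fin n → Fin (c + 2) → L) (φ : L →+* ℂ),
    Module.finrank k L ≤ r ∧ IX S A ∧ F = fun f : Fin (c + 4) ↪ Fin n => φ (crX A f)}

/-- The `S`-integral points of `M_{0,n}` of degree at most `r`. -/
def MS (k : Type) [Field k] (r n : ℕ) (S : Finset ℕ) :
    Set (Fin n → Fin n → Fin n → Fin n → ℂ) :=
  {c | ∃ (L : Type) (_ : Field L) (_ : NumberField L) (_ : Algebra k L) (P : Fin n → Fin 2 → L)
    (φ : L →+* ℂ), Module.finrank k L ≤ r ∧ IP S P ∧ c = fun i j l m => φ (cr P i j l m)}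

theorem vals_finite {k : Type} [Field k] {r m : ℕ} {S : Finset ℕ} (h : (MS k r m S).Finite) :
    (⋃ c ∈ MS k r m S, ⋃ i, ⋃ j, ⋃ l, ⋃ t, ({c i j l t} : Set ℂ)).Finite := by
  refine h.biUnion fun c _ => ?_
  exact Set.finite_iUnion fun i => Set.finite_iUnion fun j => Set.finite_iUnion fun l =>
    Set.finite_iUnion fun t => Set.finite_singleton _

theorem mem_vals {k : Type} [Field k] {r m : ℕ} {S : Finset ℕ} {L : Type} [Field L]
    [NumberField L] [Algebra k L] (P : Fin m → Fin 2 → L) (φ : L →+* ℂ)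
    (hL : Module.finrank k L ≤ r) (hP : IP S P) (i j l t : Fin m) :
    φ (cr P i j l t) ∈ ⋃ c ∈ MS k r m S, ⋃ i, ⋃ j, ⋃ l, ⋃ t, ({c i j l t} : Set ℂ) := by
  simp only [Set.mem_iUnion, Set.mem_singleton_iff]
  exact ⟨fun i j l m => φ (cr P i j l m),
    ⟨L, inferInstance, inferInstance, inferInstance, P, φ, hL, hP, rfl⟩, i, j, l, t, rfl⟩

theorem GP_comp {K : Type} [Field K] {c n m : ℕ} {A : Fin n → Fin (c + 2) → K} (hA : GP A)
    (h : Fin m → Fin n) (hh : Function.Injective h) : GP (fun i => A (h i)) := fun f hf =>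
  hA (fun t => h (f t)) (fun _ _ e => hf (hh e))

theorem exists_append {c n : ℕ} (hn : c + 4 ≤ n) (p : Fin 4 → Fin n)
    (hp : Function.Injective p) : ∃ g : Fin c → Fin n, Function.Injective (Fin.append g p) := by
  have hcard : ((Finset.univ.image p)ᶜ).card = n - 4 := by
    rw [Finset.card_compl, Finset.card_image_of_injective _ hp, Finset.card_univ,
      Fintype.card_fin, Fintype.card_fin]
  refine ⟨fun t => ((Finset.univ.image p)ᶜ).orderEmbOfFin hcard (Fin.castLE (by omega) t), ?_⟩
  refine append_inj ?_ hp ?_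
  · intro a b h
    exact Fin.castLE_injective _ ((Finset.orderEmbOfFin _ hcard).injective h)
  · intro i j h
    have := Finset.mem_compl.1 (Finset.orderEmbOfFin_mem _ hcard (Fin.castLE (by omega) i))
    exact this (Finset.mem_image.2 ⟨j, Finset.mem_univ _, h.symm⟩)

/-- Projection. -/
theorem fin_proj (k : Type) [Field k] (c r n m : ℕ) (S : Finset ℕ) (hm : m + c = n)
    (h : (MS k r m S).Finite) : (XS k c r n S).Finite := by
  refine (Set.Finite.pi' fun _ => vals_finite h).subset ?_
  rintro F ⟨L, iF, iN, iA, A, φ, hL, hA, rfl⟩ f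
  have hf : Function.Injective f := f.injective
  set g : Fin c → Fin n := fun t => f (Fin.castAdd 4 t) with hg
  have hginj : Function.Injective g := fun a b e => Fin.castAdd_injective _ _ (hf e)
  have hcard : ((Finset.univ.image g)ᶜ).card = m := by
    rw [Finset.card_compl, Finset.card_image_of_injective _ hginj, Finset.card_univ,
      Fintype.card_fin, Fintype.card_fin]
    omega
  set e := ((Finset.univ.image g)ᶜ).orderEmbOfFin hcard with he
  have hge : ∀ i j, g i ≠ e j := by
    intro i j h
    have := Finset.mem_compl.1 (Finset.orderEmbOfFin_mem _ hcard j)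
    exact this (Finset.mem_image.2 ⟨i, Finset.mem_univ _, h⟩)
  have hq : ∀ s : Fin 4, ∃ i : Fin m, e i = f (Fin.natAdd c s) := by
    intro s
    have h1 : f (Fin.natAdd c s) ∈ ((Finset.univ.image g)ᶜ : Finset (Fin n)) := by
      rw [Finset.mem_compl, Finset.mem_image]
      rintro ⟨t, -, ht⟩
      exact castAdd_ne_natAdd _ _ (hf ht)
    have h2 : f (Fin.natAdd c s) ∈ Set.range e := by
      rw [he, Finset.range_orderEmbOfFin]
      exact h1
    exact h2
  choose q hq using hq
  have hqinj : Function.Injective q := by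
    intro a b hab
    have : f (Fin.natAdd c a) = f (Fin.natAdd c b) := by rw [← hq, ← hq, hab]
    exact Fin.natAdd_injective _ _ (hf this)
  obtain ⟨P, hP1, hP2⟩ := proj A hA.1 g e hginj e.injective hge (q 0) (q 1)
    (fun h => absurd (hqinj h) (by decide))
  have hIP : IP S P := by
    refine ⟨hP1, fun p hp => ?_⟩
    rw [hP2 p hp]
    refine hA.2 _ (append_inj hginj ?_ ?_)
    · intro a b hab
      exact hp (e.injective hab)
    · intro i j
      exact hge _ _
  have h1 := hP2 q hqinj
  have h2 : Fin.append g (fun s => e (q s)) = f := by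
    funext x
    refine Fin.addCases (fun t => ?_) (fun s => ?_) x
    · rw [Fin.append_left]
    · rw [Fin.append_right]; exact hq s
  rw [h2] at h1
  show φ (crX A f) ∈ _
  rw [← h1]
  exact mem_vals P φ hL hIP _ _ _ _

/-- Gale duality. -/
theorem fin_gale (k : Type) [Field k] (c r n : ℕ) (S : Finset ℕ)
    (h : (MS k r (c + 4) S).Finite) : (XS k c r n S).Finite := by
  refine (Set.Finite.pi' fun _ => vals_finite h).subset ?_
  rintro F ⟨L, iF, iN, iA, A, φ, hL, hA, rfl⟩ f
  have hf : Function.Injective f := f.injective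
  obtain ⟨P, hP1, hP2⟩ := gale (fun i => A (f i)) (GP_comp hA.1 f hf)
  have hIP : IP S P := by
    refine ⟨hP1, fun p hp => ?_⟩
    obtain ⟨d, hinj⟩ := exists_append (c := c) le_rfl p hp
    have h1 := hP2 _ hinj
    simp only [Fin.append_right] at h1
    rw [h1]
    exact hA.2 (fun x => f (Fin.append d p x)) (fun a b e => hinj (hf e))
  have h1 := hP2 id Function.injective_id
  show φ (crX A f) ∈ _
  have h2 : crX A f = crX (fun i => A (f i)) id := rfl
  rw [h2, ← h1]
  exact mem_vals P φ hL hIP _ _ _ _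

end Run7.h523.XK
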