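import Mathlib
import Pool.Agent.Run7.h523.XK.Fin

/-!
# Points of the rational normal curve
-/

set_option autoImplicit false

namespace Run7.h523.XK

open Matrix Pool.Agent.Y734.M

variable {K : Type} [Field K] {c n : ℕ}

/-- The points of the rational normal curve. -/
def rnc (c : ℕ) (P : Fin n → Fin 2 → K) : Fin n → Fin (c + 2) → K :=
  fun a j => P a 0 ^ (j : ℕ) * P a 1 ^ (j.rev : ℕ)

theorem rnc_det (P : Fin n → Fin 2 → K) (h : Fin (c + 2) → Fin n) :
    (Matrix.of fun t => rnc c P (h t)).det =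
      ∏ i : Fin (c + 2), ∏ j ∈ Finset.Ioi i, dt (P (h j)) (P (h i)) := by
  have h1 : (Matrix.of fun t => rnc c P (h t)) =
      Matrix.projVandermonde (fun t => P (h t) 0) (fun t => P (h t) 1) := by
    ext i j
    rw [Matrix.projVandermonde_apply]
    rfl
  rw [h1, Matrix.det_projVandermonde]
  refine Finset.prod_congr rfl fun i _ => Finset.prod_congr rfl fun j _ => ?_
  unfold dt; ring

theorem rnc_GP {P : Fin n → Fin 2 → K} (hP : Nd P) : GP (rnc c P) := by
  intro h hh
  rw [rnc_det]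
  refine Finset.prod_ne_zero_iff.2 fun i _ => Finset.prod_ne_zero_iff.2 fun j hj => ?_
  refine hP _ _ fun e => ?_
  have := hh e
  have h2 := Finset.mem_Ioi.1 hj
  rw [this] at h2
  exact lt_irrefl _ h2

theorem prod_Ioi (F : Fin (c + 2) → Fin (c + 2) → K) :
    ∏ i : Fin (c + 2), ∏ j ∈ Finset.Ioi i, F i j =
      (∏ i : Fin c, ∏ j ∈ Finset.Ioi i, F (Fin.castAdd 2 i) (Fin.castAdd 2 j)) *
      (∏ i : Fin c, F (Fin.castAdd 2 i) (Fin.natAdd c 0)) *
      (∏ i : Fin c, F (Fin.castAdd 2 i) (Fin.natAdd c 1)) *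
      F (Fin.natAdd c 0) (Fin.natAdd c 1) := by
  have h0 : ∀ (m : ℕ) (i : Fin m) (G : Fin m → K), ∏ j ∈ Finset.Ioi i, G j =
      ∏ j : Fin m, if i < j then G j else 1 := by
    intro m i G
    rw [← Finset.prod_filter]
    congr 1
    ext j
    simp
  simp only [h0]
  rw [Fin.prod_univ_add]
  have h1 : ∀ i : Fin c, (∏ j : Fin (c + 2), if Fin.castAdd 2 i < j then F (Fin.castAdd 2 i) j else 1) =
      (∏ j : Fin c, if i < j then F (Fin.castAdd 2 i) (Fin.castAdd 2 j) else 1) *
        (F (Fin.castAdd 2 i) (Fin.natAdd c 0) * F (Fin.castAdd 2 i) (Fin.natAdd c 1)) := by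
    intro i
    rw [Fin.prod_univ_add, Fin.prod_univ_two]
    have a0 : Fin.castAdd 2 i < Fin.natAdd c (0 : Fin 2) := by
      rw [Fin.lt_def]; simp
    have a1 : Fin.castAdd 2 i < Fin.natAdd c (1 : Fin 2) := by
      rw [Fin.lt_def]; simp
    rw [if_pos a0, if_pos a1]
    congr 1
  have h2 : (∏ s : Fin 2, ∏ j : Fin (c + 2),
      if Fin.natAdd c s < j then F (Fin.natAdd c s) j else 1) =
        F (Fin.natAdd c 0) (Fin.natAdd c 1) := by
    rw [Fin.prod_univ_two]
    have b : ∀ s : Fin 2, (∏ j : Fin (c + 2),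
        if Fin.natAdd c s < j then F (Fin.natAdd c s) j else 1) =
        ∏ s' : Fin 2, if s < s' then F (Fin.natAdd c s) (Fin.natAdd c s') else 1 := by
      intro s
      rw [Fin.prod_univ_add]
      have b1 : ∀ j : Fin c, ¬ (Fin.natAdd c s < Fin.castAdd 2 j) := by
        intro j
        rw [Fin.lt_def]; simp; omega
      simp only [b1, if_false, Finset.prod_const_one, one_mul]
      refine Finset.prod_congr rfl fun s' _ => ?_
      have : Fin.natAdd c s < Fin.natAdd c s' ↔ s < s' := by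
        rw [Fin.lt_def, Fin.lt_def]; simp
      simp only [this]
    rw [b, b, Fin.prod_univ_two, Fin.prod_univ_two]
    simp
  rw [h2]
  simp only [h1, Finset.prod_mul_distrib]
  ring

/-- The cross ratios of points of the rational normal curve. -/
theorem rnc_cr {P : Fin n → Fin 2 → K} (hP : Nd P) (f : Fin (c + 4) → Fin n)
    (hf : Function.Injective f) : crX (rnc c P) f =
      cr P (f (Fin.natAdd c 0)) (f (Fin.natAdd c 1)) (f (Fin.natAdd c 2)) (f (Fin.natAdd c 3)) := by
  have hginj : Function.Injective fun t => f (Fin.castAdd 4 t) :=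
    fun a b e => Fin.castAdd_injective _ _ (hf e)
  have key : ∀ x y : Fin n, D (fun t => rnc c P (f (Fin.castAdd 4 t))) (rnc c P x) (rnc c P y) =
      (∏ i : Fin c, ∏ j ∈ Finset.Ioi i, dt (P (f (Fin.castAdd 4 j))) (P (f (Fin.castAdd 4 i)))) *
      (∏ i : Fin c, dt (P x) (P (f (Fin.castAdd 4 i)))) * (∏ i : Fin c, dt (P y) (P (f (Fin.castAdd 4 i)))) * dt (P y) (P x) := by
    intro x y
    rw [D_eq, rnc_det, prod_Ioi]
    simp only [Fin.append_left, Fin.append_right, Matrix.cons_val_zero, Matrix.cons_val_one]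
  have hC : (∏ i : Fin c, ∏ j ∈ Finset.Ioi i, dt (P (f (Fin.castAdd 4 j))) (P (f (Fin.castAdd 4 i)))) ≠ 0 := by
    refine Finset.prod_ne_zero_iff.2 fun i _ => Finset.prod_ne_zero_iff.2 fun j hj => ?_
    refine hP _ _ fun e => ?_
    have := hginj e
    have h2 := Finset.mem_Ioi.1 hj
    rw [this] at h2
    exact lt_irrefl _ h2
  have hE : ∀ s : Fin 4, (∏ i : Fin c, dt (P (f (Fin.natAdd c s))) (P (f (Fin.castAdd 4 i)))) ≠ 0 := by
    intro s
    refine Finset.prod_ne_zero_iff.2 fun i _ => hP _ _ fun e => ?_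
    exact castAdd_ne_natAdd _ _ (hf e.symm)
  have hd : ∀ s s' : Fin 4, s ≠ s' → dt (P (f (Fin.natAdd c s))) (P (f (Fin.natAdd c s'))) ≠ 0 :=
    fun s s' h => hP _ _ fun e => h (Fin.natAdd_injective _ _ (hf e))
  unfold crX cr
  rw [key, key, key, key]
  have e0 := hE 0
  have e1 := hE 1
  have e2 := hE 2
  have e3 := hE 3
  have d1 := hd 0 2 (by decide)
  have d2 := hd 1 3 (by decide)
  have d3 := hd 2 0 (by decide)
  have d4 := hd 3 1 (by decide)
  rw [div_eq_div_iff (by positivity) (mul_ne_zero d1 d2)]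
  simp only [dt]
  ring

theorem cr_deg {P : Fin n → Fin 2 → K} (hP : Nd P) (i j l m : Fin n)
    (h : ¬ Function.Injective ![i, j, l, m]) : cr P i j l m = 0 ∨ cr P i j l m = 1 := by
  have hself : ∀ x : Fin n, dt (P x) (P x) = 0 := by intro x; unfold dt; ring
  unfold cr
  by_cases h1 : i = j
  · left; rw [h1, hself]; simp
  by_cases h2 : l = m
  · left; rw [h2, hself]; simp
  by_cases h3 : i = l
  · left; rw [h3, hself]; simp
  by_cases h4 : j = m
  · left; rw [h4, hself]; simp
  by_cases h5 : i = m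
  · right
    subst h5
    have a := hP i l h3
    have b := hP j i (Ne.symm h1)
    rw [div_eq_one_iff_eq (mul_ne_zero a b)]
    simp only [dt]; ring
  by_cases h6 : j = l
  · right
    subst h6
    have a := hP i j h1
    have b := hP j m h4
    rw [div_eq_one_iff_eq (mul_ne_zero a b)]
  · exfalso
    apply h
    intro x y e
    fin_cases x <;> fin_cases y <;> simp_all

/-- Infinitely many points of `M_{0,n}` give infinitely many configurations. -/
theorem inf_rnc (k : Type) [Field k] (c r n : ℕ) (S : Finset ℕ) (hn : c + 4 ≤ n)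
    (h : (XS k c r n S).Finite) : (MS k r n S).Finite := by
  have hT : ((⋃ F ∈ XS k c r n S, ⋃ f, ({F f} : Set ℂ)) ∪ {0, 1}).Finite := by
    refine Set.Finite.union ?_ (by simp)
    exact h.biUnion fun F _ => Set.finite_iUnion fun f => Set.finite_singleton _
  refine (Set.Finite.pi' fun _ : Fin n => Set.Finite.pi' fun _ : Fin n =>
    Set.Finite.pi' fun _ : Fin n => Set.Finite.pi' fun _ : Fin n => hT).subset ?_
  rintro C ⟨L, iF, iN, iA, P, φ, hL, hP, rfl⟩ i j l m
  by_cases hinj : Function.Injective ![i, j, l, m]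
  · left
    obtain ⟨g, hg⟩ := exists_append hn ![i, j, l, m] hinj
    simp only [Set.mem_iUnion, Set.mem_singleton_iff]
    refine ⟨fun f : Fin (c + 4) ↪ Fin n => φ (crX (rnc c P) f),
      ⟨L, inferInstance, inferInstance, inferInstance, rnc c P, φ, hL, ⟨rnc_GP hP.1, ?_⟩, rfl⟩,
      ⟨Fin.append g ![i, j, l, m], hg⟩, ?_⟩
    · intro f hf
      rw [rnc_cr hP.1 f hf]
      exact hP.2 (fun s => f (Fin.natAdd c s)) (fun a b e => Fin.natAdd_injective _ _ (hf e))
    · show φ _ = φ (crX (rnc c P) (Fin.append g ![i, j, l, m]))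
      rw [rnc_cr hP.1 _ hg]
      simp only [Fin.append_right]
      rfl
  · right
    rcases cr_deg hP.1 i j l m hinj with h0 | h0
    · left; show φ (cr P i j l m) = 0; rw [h0, map_zero]
    · right; show φ (cr P i j l m) = 1; rw [h0, map_one]

end Run7.h523.XK
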