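import Mathlib
import Pool.Agent.Run7.h523.XK.Inf
import Pool.Agent.Run7.h523.MZ.Fin6
import Pool.Agent.Y734.R.MON.Main
import Pool.Agent.Y734.R.LOWB.Main
import Pool.Agent.N302.MB.Pts
import Pool.Agent.Y734.N.Asm
import Pool.Agent.Y734.N.P5
import Pool.Agent.Y734.M.PAIR.Main
import Pool.Agent.Y734.M.KSIX.Main
import Pool.Agent.Y734.M.KSEV.Main
import Pool.Agent.Y734.M.INV.Main
import Pool.Agent.Y734.N.G5N.Main
import Pool.Agent.Y734.N.SUN.Main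
import Pool.Agent.Y734.N.RE.Main
import Pool.Agent.Y734.N.FINS.Main
import Pool.Agent.Y734.N.SG.Main
import Pool.Agent.Y734.N.TOR.Main

/-!
# Assembly
-/

set_option autoImplicit false

namespace Run7.h523.XK

open Matrix Pool.Agent.Y734.M

/-- The bound `5 r ^ 2` for `M_{0,n}`. -/
theorem ms_five (k : Type) [Field k] [NumberField k] (r : ℕ) (n : ℕ) (hr : 1 ≤ r) (h7 : 7 ≤ n)
    (hn : 5 * r ^ 2 ≤ n) (S : Finset ℕ) (hS : ∀ p ∈ S, p.Prime) : (MS k r n S).Finite := by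
  obtain ⟨M, rfl⟩ : ∃ M, n = M + 3 := ⟨n - 3, by omega⟩
  exact Pool.Agent.N302.MB.finite_pts k r M (fun d h1 h2 => by
    unfold Pool.Agent.N302.MB.bq
    have h3 : d ^ 2 ≤ r ^ 2 := Nat.pow_le_pow_left h2 2
    have h4 : (2 * d) ^ 2 = 4 * d ^ 2 := by ring
    rw [h4]
    omega) S hS

/-- Quadratic points of `M_{0,7}`. -/
theorem ms_seven (k : Type) [Field k] [NumberField k] (S : Finset ℕ)
    (hS : ∀ p ∈ S, p.Prime) : (MS k 2 7 S).Finite := by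
  have h := Pool.Agent.Y734.N.main (Pool.Agent.Y734.N.TOR.tor Pool.Agent.Y734.N.SG.sg)
    (Pool.Agent.Y734.N.p5 Pool.Agent.Y734.M.PAIR.pair)
    Pool.Agent.Y734.M.KSIX.ksix Pool.Agent.Y734.M.KSEV.ksev
    (Pool.Agent.Y734.N.SUN.sun Pool.Agent.Y734.N.G5N.g5n)
    Pool.Agent.Y734.N.RE.rat Pool.Agent.Y734.N.RE.eul Pool.Agent.Y734.M.INV.inv
    Pool.Agent.Y734.N.FINS.fins k S hS 4 (by omega)
  have h1 := ms_five k 1 7 le_rfl le_rfl (by norm_num) S hS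
  refine (h.union h1).subset ?_
  rintro c ⟨L, iF, iN, iA, P, φ, hL, hP, hc⟩
  by_cases h2 : Module.finrank k L = 2
  · left
    refine ⟨L, iF, iN, iA, P, φ, h2, hP, ?_, hc⟩
    rintro (h | h) <;> omega
  · right
    exact ⟨L, iF, iN, iA, P, φ, by omega, hP, hc⟩

theorem main (r : ℕ) (hr : 2 ≤ r) :
    (∀ (k : Type) [Field k] [NumberField k], ∃ m : ℕ, 2 * r + 3 ≤ m ∧ m ≤ 5 * r ^ 2 ∧
      m + 5 * r ≤ 6 * r ^ 2 + 3 ∧ (r = 2 → m = 7) ∧ ∀ c n : ℕ, c + 4 ≤ n →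
        ((m ≤ c + 4 ∨ m + c ≤ n →
          ∀ S : Finset ℕ, (∀ p ∈ S, p.Prime) → (XS k c r n S).Finite) ∧
        ((∀ S : Finset ℕ, (∀ p ∈ S, p.Prime) → (XS k c r n S).Finite) → m ≤ n))) ∧
    ∃ (k : Type) (_ : Field k) (_ : NumberField k), ∀ c n : ℕ, c + 4 ≤ n → n ≤ 4 * r - 2 →
      ∃ S : Finset ℕ, (∀ p ∈ S, p.Prime) ∧ (XS k c r n S).Infinite := by
  obtain ⟨h1, h2⟩ := Run7.h523.MZ.main6 Pool.Agent.Y734.R.MON.mon Pool.Agent.Y734.R.LOWB.lowb r hr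
  have key : ∀ (k : Type) [Field k] [NumberField k] (m : ℕ), 2 * r + 3 ≤ m →
      (∀ n, 4 ≤ n → ((∀ S : Finset ℕ, (∀ p ∈ S, p.Prime) → (MS k r n S).Finite) ↔ m ≤ n)) →
      ∀ c n : ℕ, c + 4 ≤ n →
        ((m ≤ c + 4 ∨ m + c ≤ n →
          ∀ S : Finset ℕ, (∀ p ∈ S, p.Prime) → (XS k c r n S).Finite) ∧
        ((∀ S : Finset ℕ, (∀ p ∈ S, p.Prime) → (XS k c r n S).Finite) → m ≤ n)) := by
    intro k _ _ m hm h c n hn
    refine ⟨fun h3 S hS => ?_, fun h3 => ?_⟩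
    · rcases h3 with h3 | h3
      · exact fin_gale k c r n S ((h (c + 4) (by omega)).2 h3 S hS)
      · exact fin_proj k c r n (n - c) S (by omega)
          ((h (n - c) (by omega)).2 (by omega) S hS)
    · exact (h n (by omega)).1 fun S hS => inf_rnc k c r n S hn (h3 S hS)
  refine ⟨fun k _ _ => ?_, ?_⟩
  · obtain ⟨m, m1, m2, m3⟩ := h1 k
    have hr2 : 2 ^ 2 ≤ r ^ 2 := Nat.pow_le_pow_left hr 2
    refine ⟨m, m1, ?_, m2, ?_, key k m m1 m3⟩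
    · exact (m3 (5 * r ^ 2) (by omega)).1 fun S hS =>
        ms_five k r (5 * r ^ 2) (by omega) (by omega) le_rfl S hS
    · rintro rfl
      have := (m3 7 (by omega)).1 fun S hS => ms_seven k S hS
      omega
  · obtain ⟨k, iF, iN, S, hS, hinf⟩ := h2
    refine ⟨k, iF, iN, fun c n hn hn2 => ?_⟩
    obtain ⟨m, m1, m2, m3⟩ := h1 k
    by_contra hcon
    push Not at hcon
    have h5 := (key k m m1 m3 c n hn).2 hcon
    exact hinf ((m3 (4 * r - 2) (by omega)).2 (by omega) S hS)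

end Run7.h523.XK
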